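import Pool.Agent.N39.RW.Pages

set_option autoImplicit false

/-!
# Windows `(x, x + k]` in which all survivors of the sieve by the primes `≤ k` are almost primes

Let `A` be the set of the `a` with `1 ≤ a ≤ k` for which no prime `p ≤ k` divides `m + a`, so that `h_m(k) = |A|`. For
`x ≡ m` modulo the product of the primes `≤ k`, the integers of `(x, x + k]` without a prime factor `≤ k` are the
`x + a`, `a ∈ A`. We count the `x` for which all of them are almost primes, a prescribed one of them is prime and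
another prescribed one is a product of at most two primes: the correct order of magnitude in all windows around a
positive proportion of the integers, between consecutive powers, and for pairs at a positive proportion of the
distances.
-/

namespace Pool.Agent.Results.MP_cbf366_nt.AlmostPrimeSurvivors

open Filter

/-- the positions `a`, `1 ≤ a ≤ k`, for which no prime `≤ k` divides `m + a`; `h_m(k) = |A m k|` -/
def A (m k : ℕ) : Finset ℕ := (Finset.Icc 1 k).filter (fun a => ∀ p ∈ Finset.Icc 1 k, p.Prime → ¬ p ∣ m + a)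

/-- the integer `m + t ∏_{p ≤ k} p` -/
def x (m k t : ℕ) : ℕ := primorial k * t + m

/-- `x + i` is prime, `x + j` is a product of at most two primes, and all `x + a`, `a ∈ A`, are products of at most
`r` primes, all larger than `z` -/
def Good (m k i j r : ℕ) (z : ℝ) (t : ℕ) : Prop :=
  (x m k t + i).Prime ∧ (x m k t + j).primeFactorsList.length ≤ 2 ∧
    ∀ a ∈ A m k, (x m k t + a).primeFactorsList.length ≤ r ∧ ∀ q : ℕ, q.Prime → q ∣ x m k t + a → z < (q : ℝ)

/-- all prime factors of all `x + a`, `a ∈ A`, are larger than `z` -/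
def Sieved (m k : ℕ) (z : ℝ) (t : ℕ) : Prop :=
  ∀ a ∈ A m k, ∀ q : ℕ, q.Prime → q ∣ x m k t + a → z < (q : ℝ)

/-- `s` is regular: in ALL windows `(u, v]` with `u ≤ s ≤ v` and `K (log s) ^ h ≤ v - u ≤ s`, `h = |A|`, there are at
least `c₁ (v - u) / (log s) ^ h` good `t`, and at most `c₂ (v - u) / (log s) ^ h` sieved `t`. -/
def Regular (m k i j r : ℕ) (c₁ c₂ K : ℝ) (s : ℕ) : Prop :=
  ∀ u v : ℕ, u ≤ s → s ≤ v → K * Real.log s ^ (A m k).card ≤ (v : ℝ) - u → (v : ℝ) - u ≤ s →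
    c₁ * ((v : ℝ) - u) / Real.log s ^ (A m k).card ≤
      ({t : ℕ | u < t ∧ t ≤ v ∧ Good m k i j r ((s : ℝ) ^ (1 / (r : ℝ))) t}.ncard : ℝ) ∧
    ({t : ℕ | u < t ∧ t ≤ v ∧ Sieved m k ((s : ℝ) ^ (1 / (r : ℝ))) t}.ncard : ℝ) ≤
      c₂ * ((v : ℝ) - u) / Real.log s ^ (A m k).card

theorem mem_A (m k a : ℕ) : a ∈ A m k ↔ (1 ≤ a ∧ a ≤ k) ∧ ∀ p : ℕ, p.Prime → p ≤ k → ¬ p ∣ m + a := by
  unfold A
  rw [Finset.mem_filter, Finset.mem_Icc]
  constructor
  · rintro ⟨h1, h2⟩
    exact ⟨h1, fun p hp hpk => h2 p (Finset.mem_Icc.2 ⟨hp.one_lt.le, hpk⟩) hp⟩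
  · rintro ⟨h1, h2⟩
    exact ⟨h1, fun p hpk hp => h2 p hp (Finset.mem_Icc.1 hpk).2⟩

theorem dvd_primorial {p k : ℕ} (hp : p.Prime) (hpk : p ≤ k) : p ∣ primorial k := by
  unfold primorial
  exact Finset.dvd_prod_of_mem _ (by simp [hp]; omega)

theorem not_dvd_primorial {p k : ℕ} (hp : p.Prime) (hpk : k < p) : ¬ p ∣ primorial k := by
  unfold primorial
  intro h
  rw [Prime.dvd_finsetProd_iff hp.prime] at h
  obtain ⟨q, hq, hd⟩ := h
  rw [Finset.mem_filter, Finset.mem_range] at hq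
  have := (Nat.prime_dvd_prime_iff_eq hp hq.2).1 hd
  omega

theorem dvd_shift (m k t b p : ℕ) (hp : p.Prime) (hpk : p ≤ k) : p ∣ x m k t + b ↔ p ∣ m + b := by
  unfold x
  rw [add_assoc]
  exact Nat.dvd_add_right ((dvd_primorial hp hpk).mul_right t)

theorem result (m k i j : ℕ) (hi : i ∈ A m k) (hj : j ∈ A m k) (hij : i ≠ j) :
    (∀ t b : ℕ, 1 ≤ b → b ≤ k → (b ∈ A m k ↔ ∀ p : ℕ, p.Prime → p ≤ k → ¬ p ∣ x m k t + b)) ∧
    ∃ r : ℕ, 1 ≤ r ∧
    (∃ c₁ c₂ K : ℝ, 0 < c₁ ∧ 0 < c₂ ∧ 0 < K ∧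
      (∃ μ : ℝ, 0 < μ ∧ ∀ᶠ y : ℕ in atTop,
        μ * y ≤ ({s : ℕ | s ≤ y ∧ Regular m k i j r c₁ c₂ K s}.ncard : ℝ)) ∧
      ∀ e : ℕ, 2 ≤ e → ∃ ν : ℝ, 0 < ν ∧ ∀ᶠ N : ℕ in atTop, ν * N ≤
        ({n : ℕ | N ≤ n ∧ n < 2 * N ∧
          ν * (n : ℝ) ^ (e - 1) ≤
            ({s : ℕ | n ^ e < s ∧ s < (n + 1) ^ e ∧ Regular m k i j r c₁ c₂ K s}.ncard : ℝ) ∧
          ν * (n : ℝ) ^ (e - 1) / Real.log n ^ (A m k).card ≤
            ({t : ℕ | n ^ e < t ∧ t < (n + 1) ^ e ∧
              Good m k i j r ((n : ℝ) ^ ((e : ℝ) / r)) t}.ncard : ℝ)}.ncard : ℝ)) ∧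
    ∃ c C K : ℝ, 0 < c ∧ 0 < C ∧ 0 < K ∧ ∀ᶠ X : ℕ in atTop,
      ∀ H : ℕ, K * Real.log X ^ (A m k).card ≤ H → H ≤ X →
      c * H ≤ ({d : ℕ | 1 ≤ d ∧ d ≤ H ∧
        c * X / Real.log X ^ (2 * (A m k).card) ≤ ({t : ℕ | X < t ∧ t + d ≤ 2 * X ∧
          Good m k i j r ((X : ℝ) ^ (1 / (r : ℝ))) t ∧ Good m k i j r ((X : ℝ) ^ (1 / (r : ℝ))) (t + d)}.ncard : ℝ) ∧
        ({t : ℕ | X < t ∧ t + d ≤ 2 * X ∧
          Sieved m k ((X : ℝ) ^ (1 / (r : ℝ))) t ∧ Sieved m k ((X : ℝ) ^ (1 / (r : ℝ))) (t + d)}.ncard : ℝ) ≤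
            C * X / Real.log X ^ (2 * (A m k).card)}.ncard : ℝ) := by
  classical
  refine ⟨fun t b hb1 hbk => ?_, ?_⟩
  · rw [mem_A]
    constructor
    · rintro ⟨-, h⟩ p hp hpk hd
      exact h p hp hpk ((dvd_shift m k t b p hp hpk).1 hd)
    · intro h
      exact ⟨⟨hb1, hbk⟩, fun p hp hpk hd => h p hp hpk ((dvd_shift m k t b p hp hpk).2 hd)⟩
  obtain ⟨e, he⟩ : ∃ e : A m k ≃ Fin (A m k).card, e = (A m k).equivFin := ⟨_, rfl⟩
  have hcard : (A m k).card ≤ k := by
    have h1 := Finset.card_le_card (Finset.filter_subset (fun a => ∀ p ∈ Finset.Icc 1 k, p.Prime → ¬ p ∣ m + a)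
      (Finset.Icc 1 k))
    rw [Nat.card_Icc] at h1
    unfold A
    omega
  obtain ⟨F, hFd⟩ : ∃ F : Fin (A m k).card → ℕ → ℕ, F = fun l t => x m k t + ((e.symm l : A m k) : ℕ) := ⟨_, rfl⟩
  obtain ⟨r, hr, H⟩ := Pool.Agent.N39.RW.pageL (fun _ => primorial k : Fin (A m k).card → ℕ)
    (fun l => (m : ℤ) + (((e.symm l : A m k) : ℕ) : ℤ))
    (fun _ => primorial_pos k)
    (by
      intro l l' _ h
      have h1 : ((e.symm l : A m k) : ℕ) = ((e.symm l' : A m k) : ℕ) := by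
        have : (((e.symm l : A m k) : ℕ) : ℤ) = (((e.symm l' : A m k) : ℕ) : ℤ) := by linarith
        exact_mod_cast this
      exact e.symm.injective (Subtype.ext h1))
    (by
      intro p hp
      rcases Nat.lt_or_ge k p with hpk | hpk
      · by_contra hcon
        push Not at hcon
        choose f hf using hcon
        have h7 : Set.InjOn f (Finset.range p : Set ℕ) := by
          intro n hn n' hn' hee
          rw [Finset.mem_coe, Finset.mem_range] at hn hn'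
          have h8 := hf n
          have h9 := hf n'
          rw [← hee] at h9
          have h10 : (p : ℤ) ∣ (primorial k : ℤ) * ((n : ℤ) - n') := by
            have h11 := dvd_sub h8 h9
            have e1 : ((primorial k : ℕ) : ℤ) * (n : ℤ) + ((m : ℤ) + (((e.symm (f n) : A m k) : ℕ) : ℤ)) -
                (((primorial k : ℕ) : ℤ) * (n' : ℤ) + ((m : ℤ) + (((e.symm (f n) : A m k) : ℕ) : ℤ))) =
                (primorial k : ℤ) * ((n : ℤ) - n') := by ring
            rwa [e1] at h11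
          rcases (Nat.prime_iff_prime_int.1 hp).dvd_or_dvd h10 with h12 | h12
          · exact absurd (Int.natCast_dvd_natCast.1 h12) (not_dvd_primorial hp hpk)
          · have h11 : |(n : ℤ) - n'| < p := by
              rw [abs_lt]
              constructor <;> omega
            have := Int.eq_zero_of_abs_lt_dvd h12 h11
            omega
        have h8 := Finset.card_le_card_of_injOn (s := Finset.range p)
          (t := (Finset.univ : Finset (Fin (A m k).card))) f (fun n _ => Finset.mem_univ _) h7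
        rw [Finset.card_range, Finset.card_univ, Fintype.card_fin] at h8
        omega
      · refine ⟨0, fun l h => ?_⟩
        have h1 := ((mem_A m k _).1 (e.symm l).2).2 p hp hpk
        apply h1
        simp only [Nat.cast_zero, mul_zero, zero_add] at h
        exact_mod_cast h)
    F (by
      intro l n _
      rw [hFd]
      simp only [x]
      push_cast
      ring)
    (e ⟨i, hi⟩) (e ⟨j, hj⟩) (by
      intro h
      apply hij
      have := e.injective h
      exact congrArg Subtype.val this)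
  have hFi : ∀ t, F (e ⟨i, hi⟩) t = x m k t + i := fun t => by rw [hFd]; simp
  have hFj : ∀ t, F (e ⟨j, hj⟩) t = x m k t + j := fun t => by rw [hFd]; simp
  have hall : ∀ (t : ℕ) (P : ℕ → Prop), (∀ l, P (F l t)) ↔ ∀ a ∈ A m k, P (x m k t + a) := by
    intro t P
    rw [hFd]
    constructor
    · intro h a ha
      have := h (e ⟨a, ha⟩)
      simpa using this
    · intro h l
      exact h _ (e.symm l).2
  have hNC : ∀ (r : ℕ) (z : ℝ) (t : ℕ),
      Pool.Agent.N39.RW.NC F (e ⟨i, hi⟩) (e ⟨j, hj⟩) r z t ↔ Good m k i j r z t := by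
    intro r z t
    unfold Pool.Agent.N39.RW.NC Good
    rw [hFi, hFj, hall t (fun y => y.primeFactorsList.length ≤ r ∧ ∀ q : ℕ, q.Prime → q ∣ y → z < (q : ℝ))]
  have hNR : ∀ (z : ℝ) (t : ℕ), Pool.Agent.N39.RW.NR F z t ↔ Sieved m k z t := by
    intro z t
    unfold Pool.Agent.N39.RW.NR Sieved
    exact hall t (fun y => ∀ q : ℕ, q.Prime → q ∣ y → z < (q : ℝ))
  obtain ⟨⟨c₁, c₂, K, hc₁, hc₂, hK, huse⟩, c, C, K', hc, hC, hK', hd⟩ := H _ _ (Or.inl ⟨rfl, rfl⟩)
  simp only [hNC, hNR] at huse hd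
  refine ⟨r, hr, ⟨c₁, c₂, K, hc₁, hc₂, hK, ?_⟩, c, C, K', hc, hC, hK', ?_⟩
  · exact huse (Regular m k i j r c₁ c₂ K) (fun t ht => ht)
  · exact hd

end Pool.Agent.Results.MP_cbf366_nt.AlmostPrimeSurvivors
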