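import Mathlib
import Pool.Agent.N315.PS.UniC

/-!
# The short intervals with many chosen integers in all sieved sequential models: local statistics

The integers are decided one after the other; the multiples of the primes of a finite set `Q` are never chosen and
the conditional probability of choosing an integer `n + 1` which is not such a multiple, given the decisions up to
`n`, is asymptotic to `∏_{p ∈ Q} (1 - 1 / p)⁻¹ / log n`, almost surely.  Nothing else is assumed: no independence and
no rate of convergence.  For `Q = ∅` the independent model of Cramér and the random sieve of Hawkins are examples.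

Almost surely, for ALL `k` and `j ≥ 1`: either no window `(x, x + k]` contains `j` chosen integers, or the windows
`(x, x + k]` with chosen right end which contain at least `j` chosen integers follow the counting law `c X / log ^ j X`, the
numbers of these windows in intervals of length `(λ / c) log ^ j x` follow the Poisson law, and the distances between
neighbouring ones, normalised in the same way, follow the exponential law. Here `c` is the sum of the constants of
Hardy and Littlewood (truncated to `Q`) of the patterns with `j` elements. If `Q` contains all primes `p ≤ k` the first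
alternative holds if and only if `j` is larger than the numbers `h_m(k)` of the question; so the largest number `j`
which occurs is `max_m h_m(k)` (this is `SievedModels`, by helper505), and the windows with the maximal number of chosen
integers are Poisson distributed with an explicit intensity.

Proof. The patterns are treated together: a place is tried if one of the patterns needs only this place. The places
which are needed by two patterns at once are rare. The places are counted, in most windows, by a concentration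
inequality. The conditional probability of exactly `r` successes is bounded from above by the exact limit, and an
exponential inequality for windows which do not overlap gives the upper frequencies of all `r`, almost surely; as the
limits have the sum one, these are the frequencies.
-/

set_option autoImplicit false

open MeasureTheory Filter Set ProbabilityTheory
open scoped Topology

namespace Pool.Agent.Results.MP_cbf366_nt.ExtremalWindows

variable {Ω : Type}

/-- `A n` is the event that `n` is chosen; adapted to `ℱ`; multiples of the primes in `Q` are not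
chosen; the conditional probability of `A (n + 1)` given `ℱ n`, times `log n`, tends almost surely to
`∏_{p ∈ Q} (1 - 1 / p)⁻¹` along the `n` such that no `p ∈ Q` divides `n + 1` -/
def SievedModel [m : MeasurableSpace Ω] (μ : Measure Ω) (ℱ : Filtration ℕ m)
    (A : ℕ → Set Ω) (Q : Finset ℕ) : Prop :=
  (∀ n, MeasurableSet[ℱ n] (A n)) ∧ (∀ n, (∃ p ∈ Q, p ∣ n) → A n = ∅) ∧
  ∀ᵐ ω ∂μ, Tendsto (fun n : ℕ => (μ[(A (n + 1)).indicator (fun _ => (1 : ℝ)) | ℱ n]) ω * Real.log n)
    (atTop ⊓ 𝓟 {n : ℕ | ∀ p ∈ Q, ¬ p ∣ n + 1}) (𝓝 (∏ p ∈ Q, (1 - 1 / (p : ℝ))⁻¹))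

/-- The model of Cramér: independent events, `n` is chosen with probability `1 / log n` for `n ≥ 3`. -/
def CramerModel [MeasurableSpace Ω] (μ : Measure Ω) (A : ℕ → Set Ω) : Prop :=
  (∀ n, MeasurableSet (A n)) ∧ iIndepSet A μ ∧ ∀ n : ℕ, 3 ≤ n → μ (A n) = ENNReal.ofReal (1 / Real.log n)

open Classical in
/-- The random sieve of Hawkins: `2` is chosen, and given the decisions up to `n ≥ 2` the number
`n + 1` is chosen with probability `∏ (1 - 1 / h)`, the product over the chosen `2 ≤ h ≤ n`. -/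
def HawkinsSieve [m : MeasurableSpace Ω] (μ : Measure Ω) (ℱ : Filtration ℕ m) (A : ℕ → Set Ω) : Prop :=
  (∀ n, MeasurableSet[ℱ n] (A n)) ∧ A 2 = univ ∧
  ∀ n, 2 ≤ n → μ[(A (n + 1)).indicator (fun _ => (1 : ℝ)) | ℱ n] =ᵐ[μ]
    fun ω => ∏ h ∈ Finset.Icc 2 n, if ω ∈ A h then 1 - 1 / (h : ℝ) else 1

open Classical in
/-- the number of elements of `S` in `(x, x + k]` -/
noncomputable def cnt (S : Set ℕ) (x k : ℕ) : ℕ := ((Finset.Icc 1 k).filter (fun d => x + d ∈ S)).card

open Classical in
/-- the number `h_m(k)` of the integers in `(m, m + k]` which are divisible by no prime `p ≤ k` -/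
noncomputable def hcount (m k : ℕ) : ℕ :=
  ((Finset.Icc 1 k).filter (fun d => ∀ p : ℕ, p.Prime → p ≤ k → ¬ p ∣ m + d)).card

/-- the `x` such that `x + k` is an element of `S` and `(x, x + k]` contains at least `j` elements of `S` -/
def Rich (S : Set ℕ) (k j : ℕ) : Set ℕ := {x | x + k ∈ S ∧ j ≤ cnt S x k}

/-- the sets of `j` elements of `{1, ..., k}` which contain `k` -/
def patterns (k j : ℕ) : Finset (Finset ℕ) := ((Finset.Icc 1 k).powersetCard j).filter (fun D => k ∈ D)

/-- the number of the residues `r` modulo `p` such that `p` divides some `r + d`, `d ∈ D` -/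
noncomputable def zeros (D : Finset ℕ) (p : ℕ) : ℕ := {r : ℕ | r < p ∧ ∃ d ∈ D, p ∣ r + d}.ncard

/-- the constant of Hardy and Littlewood, truncated to the primes of `Q` -/
noncomputable def const (Q D : Finset ℕ) : ℝ :=
  ∏ p ∈ Q, (1 - (zeros D p : ℝ) / p) / (1 - 1 / (p : ℝ)) ^ D.card

/-- the sum of the constants of the patterns -/
noncomputable def total (Q : Finset ℕ) (k j : ℕ) : ℝ := ∑ D ∈ patterns k j, const Q D

/-- The least element of `M` greater than `s`. -/
noncomputable def nextElement (M : Set ℕ) (s : ℕ) : ℕ := sInf {t | t ∈ M ∧ s < t}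

/-- the number of the elements of `M` below `X` is asymptotic to `c X / log ^ k X` -/
def CountingLaw (M : Set ℕ) (c : ℝ) (k : ℕ) : Prop :=
  Tendsto (fun X : ℕ => ({n : ℕ | n < X ∧ n ∈ M}.ncard : ℝ) * Real.log X ^ k / X) atTop (𝓝 c)

/-- for all `λ > 0` and all `r`, the proportion of the `x < X` with exactly `r` elements of `M` in
`(x, x + (λ / c) log ^ k x]` tends to `λ ^ r / r! exp (-λ)` -/
def WindowLaw (M : Set ℕ) (c : ℝ) (k : ℕ) : Prop :=
  ∀ lam : ℝ, 0 < lam → ∀ r : ℕ, Tendsto (fun X : ℕ => ({x : ℕ | x < X ∧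
    {n : ℕ | n ∈ M ∧ x < n ∧ (n : ℝ) ≤ x + lam / c * Real.log x ^ k}.ncard = r}.ncard : ℝ) / X)
    atTop (𝓝 (lam ^ r / (r.factorial : ℝ) * Real.exp (-lam)))

/-- for all `λ > 0`, the proportion of the elements `s < X` of `M` whose distance to the next element of `M` is
larger than `(λ / c) log ^ k s` tends to `exp (-λ)` -/
def GapLaw (M : Set ℕ) (c : ℝ) (k : ℕ) : Prop :=
  ∀ lam : ℝ, 0 < lam → Tendsto (fun X : ℕ =>
    ({s : ℕ | s < X ∧ s ∈ M ∧ lam / c * Real.log s ^ k < (nextElement M s : ℝ) - s}.ncard : ℝ) /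
      ({s : ℕ | s < X ∧ s ∈ M}.ncard : ℝ)) atTop (𝓝 (Real.exp (-lam)))

open Pool.Agent.N740.HK Pool.Agent.R528.RM Pool.Agent.N315.CC Pool.Agent.N315.PL Pool.Agent.N315.PS

lemma prod_inv (A : ℕ → Set Ω) (n : ℕ) (ω : Ω) [DecidablePred fun h => ω ∈ A h] :
    (∏ h ∈ Finset.Icc 2 n, if ω ∈ A h then 1 - 1 / (h : ℝ) else 1) = (Y A n ω)⁻¹ := by
  unfold Y
  rw [← Finset.prod_inv_distrib]
  refine Finset.prod_congr rfl fun h hh => ?_
  have h2 : (2 : ℝ) ≤ h := by exact_mod_cast (Finset.mem_Icc.1 hh).1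
  by_cases hA : ω ∈ A h
  · rw [if_pos hA, if_pos hA, inv_div]
    field_simp
  · rw [if_neg hA, if_neg hA, inv_one]

lemma log_ratio : Tendsto (fun n : ℕ => (Real.log ((n + 1 : ℕ) : ℝ))⁻¹ * Real.log n) atTop (𝓝 1) := by
  have h1 : Tendsto (fun n : ℕ => Real.log ((n : ℝ) + 1) - Real.log n) atTop (𝓝 0) := by
    have h1 : Tendsto (fun n : ℕ => 1 + (1 : ℝ) / n) atTop (𝓝 (1 + 0)) :=
      tendsto_const_nhds.add tendsto_one_div_atTop_nhds_zero_nat
    rw [add_zero] at h1
    have h2 := (Real.continuousAt_log (one_ne_zero)).tendsto.comp h1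
    rw [Real.log_one] at h2
    refine h2.congr' ?_
    filter_upwards [eventually_gt_atTop 0] with n hn
    have hn' : (0 : ℝ) < n := by exact_mod_cast hn
    show Real.log (1 + 1 / (n : ℝ)) = _
    rw [← Real.log_div (by positivity) hn'.ne']
    congr 1
    field_simp
  have h2 : Tendsto (fun n : ℕ => Real.log ((n : ℝ) + 1)) atTop atTop :=
    Real.tendsto_log_atTop.comp (tendsto_atTop_add_const_right _ _ tendsto_natCast_atTop_atTop)
  have h3 := h1.div_atTop h2
  have h4 : Tendsto (fun n : ℕ => 1 - (Real.log ((n : ℝ) + 1) - Real.log n) / Real.log ((n : ℝ) + 1)) atTop (𝓝 (1 - 0)) :=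
    tendsto_const_nhds.sub h3
  rw [sub_zero] at h4
  refine h4.congr' ?_
  filter_upwards [h2.eventually_gt_atTop 0] with n hn
  push_cast
  field_simp
  ring

lemma sieved_of_seq [m : MeasurableSpace Ω] {μ : Measure Ω} {ℱ : Filtration ℕ m} {A : ℕ → Set Ω}
    (h1 : ∀ n, MeasurableSet[ℱ n] (A n))
    (h2 : ∀ᵐ ω ∂μ, Tendsto (fun n : ℕ => (μ[(A (n + 1)).indicator (fun _ => (1 : ℝ)) | ℱ n]) ω * Real.log n) atTop (𝓝 1)) :
    SievedModel μ ℱ A ∅ := by
  refine ⟨h1, fun n hn => ?_, ?_⟩
  · obtain ⟨p, hp, _⟩ := hn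
    exact absurd hp (Finset.notMem_empty p)
  · filter_upwards [h2] with ω hω
    rw [Finset.prod_empty]
    exact hω.mono_left inf_le_left

lemma zeros_eq (D : Finset ℕ) (p : ℕ) [DecidablePred fun r : ℕ => ∃ d ∈ D, p ∣ r + d] :
    zeros D p = ((Finset.range p).filter (fun r : ℕ => ∃ d ∈ D, p ∣ r + d)).card := by
  unfold zeros
  rw [← Set.ncard_coe_finset]
  congr 1
  ext r
  simp

lemma zeros_lt (D : Finset ℕ) {p : ℕ} (hp : p.Prime) {r : ℕ} (hr : ∀ d ∈ D, ¬ p ∣ r + d) : zeros D p < p := by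
  classical
  rw [zeros_eq]
  have h1 : (Finset.range p).filter (fun r : ℕ => ∃ d ∈ D, p ∣ r + d) ⊂ Finset.range p := by
    refine Finset.filter_ssubset.2 ⟨r % p, Finset.mem_range.2 (Nat.mod_lt _ hp.pos), ?_⟩
    rintro ⟨j, hj, hd⟩
    apply hr j hj
    rw [Nat.dvd_iff_mod_eq_zero] at hd ⊢
    rwa [Nat.mod_add_mod] at hd
  have h2 := Finset.card_lt_card h1
  rwa [Finset.card_range] at h2

lemma zeros_le (D : Finset ℕ) (p : ℕ) : zeros D p ≤ p := by
  classical
  rw [zeros_eq]
  exact (Finset.card_filter_le _ _).trans (by rw [Finset.card_range])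

lemma const_nonneg (Q : Finset ℕ) (hQ : ∀ p ∈ Q, p.Prime) (D : Finset ℕ) : 0 ≤ const Q D := by
  unfold const
  refine Finset.prod_nonneg fun p hp => ?_
  have h1 : (1 : ℝ) < p := by exact_mod_cast (hQ p hp).one_lt
  have h3 : 0 < 1 - 1 / (p : ℝ) := by
    rw [sub_pos, div_lt_one (by linarith)]
    exact h1
  have h4 : (zeros D p : ℝ) ≤ p := by exact_mod_cast zeros_le D p
  refine div_nonneg ?_ (pow_pos h3 _).le
  rw [sub_nonneg, div_le_one (by linarith)]
  exact h4

lemma const_pos (Q : Finset ℕ) (hQ : ∀ p ∈ Q, p.Prime) (D : Finset ℕ)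
    (h : ∀ p ∈ Q, ∃ r : ℕ, ∀ d ∈ D, ¬ p ∣ r + d) : 0 < const Q D := by
  unfold const
  refine Finset.prod_pos fun p hp => ?_
  obtain ⟨r, hr⟩ := h p hp
  have h1 : (1 : ℝ) < p := by exact_mod_cast (hQ p hp).one_lt
  have h3 : 0 < 1 - 1 / (p : ℝ) := by
    rw [sub_pos, div_lt_one (by linarith)]
    exact h1
  have h4 : (zeros D p : ℝ) < p := by exact_mod_cast zeros_lt D (hQ p hp) hr
  refine div_pos ?_ (pow_pos h3 _)
  rw [sub_pos, div_lt_one (by linarith)]
  exact h4

lemma mem_patterns {k j : ℕ} {D : Finset ℕ} : D ∈ patterns k j ↔ (∀ d ∈ D, 1 ≤ d ∧ d ≤ k) ∧ D.card = j ∧ k ∈ D := by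
  unfold patterns
  rw [Finset.mem_filter, Finset.mem_powersetCard]
  constructor
  · rintro ⟨⟨h1, h2⟩, h3⟩
    exact ⟨fun d hd => Finset.mem_Icc.1 (h1 hd), h2, h3⟩
  · rintro ⟨h1, h2, h3⟩
    exact ⟨⟨fun d hd => Finset.mem_Icc.2 (h1 d hd), h2⟩, h3⟩

/-- a window with `j` integers prime to `Q` gives a pattern -/
lemma total_pos (Q : Finset ℕ) (hQ : ∀ p ∈ Q, p.Prime) {k j x : ℕ} (hj : 1 ≤ j) (B : Finset ℕ)
    (hB : ∀ d ∈ B, 1 ≤ d ∧ d ≤ k) (hBj : j ≤ B.card) (hBQ : ∀ p ∈ Q, (∀ d ∈ B, ¬ p ∣ x + d) ∨ k < p) : 0 < total Q k j := by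
  classical
  have hne : B.Nonempty := Finset.card_pos.1 (by omega)
  set b := B.max' hne with hb
  have hbB : b ∈ B := Finset.max'_mem B hne
  obtain ⟨C, hC1, hC2, hC3⟩ := Finset.exists_subsuperset_card_eq (Finset.singleton_subset_iff.2 hbB)
    (by rw [Finset.card_singleton]; exact hj) hBj
  have hbk := (hB b hbB).2
  have hinj : Set.InjOn (fun d => d + (k - b)) (C : Set ℕ) := fun u _ v _ huv => by
    have huv : u + (k - b) = v + (k - b) := huv
    omega
  have hD : C.image (fun d => d + (k - b)) ∈ patterns k j := by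
    rw [mem_patterns]
    refine ⟨?_, ?_, ?_⟩
    · intro d hd
      obtain ⟨u, hu, rfl⟩ := Finset.mem_image.1 hd
      have h1 := hB u (hC2 hu)
      have h2 : u ≤ b := Finset.le_max' B u (hC2 hu)
      show 1 ≤ u + (k - b) ∧ u + (k - b) ≤ k
      omega
    · rw [Finset.card_image_of_injOn hinj, hC3]
    · refine Finset.mem_image.2 ⟨b, Finset.singleton_subset_iff.1 hC1, ?_⟩
      show b + (k - b) = k
      omega
  unfold total
  refine Finset.sum_pos' (fun D _ => const_nonneg Q hQ D) ⟨_, hD, const_pos Q hQ _ fun p hp => ?_⟩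
  rcases hBQ p hp with h | h
  · refine ⟨x + k * p - (k - b), fun d hd hdv => ?_⟩
    obtain ⟨u, hu, rfl⟩ := Finset.mem_image.1 hd
    have hp1 := (hQ p hp).one_lt
    have h1 : k ≤ k * p := Nat.le_mul_of_pos_right k (by omega)
    have e : x + k * p - (k - b) + (u + (k - b)) = (x + u) + k * p := by omega
    have hdv : p ∣ x + k * p - (k - b) + (u + (k - b)) := hdv
    rw [e] at hdv
    exact h u (hC2 hu) ((Nat.dvd_add_iff_left (dvd_mul_left p k)).2 hdv)
  · refine ⟨0, fun d hd hdv => ?_⟩
    obtain ⟨h1, _, _⟩ := mem_patterns.1 hD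
    have h2 := h1 d hd
    rw [zero_add] at hdv
    have := Nat.le_of_dvd (by omega) hdv
    omega

lemma rich_eq (S : Set ℕ) {k j : ℕ} (hj : 1 ≤ j) : UN S (patterns k j) = Rich S k j := by
  classical
  ext x
  constructor
  · rintro ⟨D, hD, h⟩
    obtain ⟨h1, h2, h3⟩ := mem_patterns.1 hD
    refine ⟨h k h3, ?_⟩
    unfold cnt
    rw [← h2]
    refine Finset.card_le_card fun d hd => ?_
    exact Finset.mem_filter.2 ⟨Finset.mem_Icc.2 (h1 d hd), h d hd⟩
  · rintro ⟨h1, h2⟩
    unfold cnt at h2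
    have hk : 1 ≤ k := by
      by_contra hcon
      have : k = 0 := by omega
      subst this
      simp at h2
      omega
    obtain ⟨C, hC1, hC2, hC3⟩ := Finset.exists_subsuperset_card_eq
      (Finset.singleton_subset_iff.2 (Finset.mem_filter.2 ⟨Finset.mem_Icc.2 ⟨hk, le_rfl⟩, h1⟩))
      (by rw [Finset.card_singleton]; exact hj) h2
    refine ⟨C, mem_patterns.2 ⟨fun d hd => Finset.mem_Icc.1 (Finset.mem_filter.1 (hC2 hd)).1, hC3, Finset.singleton_subset_iff.1 hC1⟩, ?_⟩
    intro d hd
    exact (Finset.mem_filter.1 (hC2 hd)).2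

end Pool.Agent.Results.MP_cbf366_nt.ExtremalWindows

open Pool.Agent.Results.MP_cbf366_nt.ExtremalWindows Pool.Agent.N740.HK Pool.Agent.R528.RM Pool.Agent.N315.PS Pool.Agent.N315.CC Pool.Agent.N315.PL

/-- The model of Cramér (for some filtration) and the random sieve of Hawkins are sieved models with `Q = ∅`.
In every sieved model, almost surely, for all `k` and all `j ≥ 1`, with `c = total Q k j`: (1) if `c` is not positive, no
window `(x, x + k]` contains `j` chosen integers; (2) if `c > 0`, the counting law, the Poisson law in windows and the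
exponential law of the gaps hold, with exponent `j` and constant `c`, for the set of the `x` such that `x + k` is chosen and
`(x, x + k]` contains at least `j` chosen integers; (3) if `Q` contains all primes `p ≤ k`, then `c > 0` if and only if
`j ≤ h_m(k)` for some `m`. -/
theorem Pool.Agent.Results.MP_cbf366_nt.ExtremalWindows.result
    {Ω : Type} [m : MeasurableSpace Ω] (μ : Measure Ω) [IsProbabilityMeasure μ] (A : ℕ → Set Ω) :
    (CramerModel μ A → ∃ ℱ : Filtration ℕ m, SievedModel μ ℱ A ∅) ∧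
    (∀ ℱ : Filtration ℕ m, HawkinsSieve μ ℱ A → SievedModel μ ℱ A ∅) ∧
    (∀ (ℱ : Filtration ℕ m) (Q : Finset ℕ), (∀ p ∈ Q, p.Prime) → SievedModel μ ℱ A Q →
      ∀ᵐ ω ∂μ, ∀ k j : ℕ, 1 ≤ j →
        (¬ 0 < total Q k j → ∀ x : ℕ, cnt {n | ω ∈ A n} x k < j) ∧
        (0 < total Q k j →
          CountingLaw (Rich {n | ω ∈ A n} k j) (total Q k j) j ∧
          WindowLaw (Rich {n | ω ∈ A n} k j) (total Q k j) j ∧
          GapLaw (Rich {n | ω ∈ A n} k j) (total Q k j) j) ∧
        ((∀ p : ℕ, p.Prime → p ≤ k → p ∈ Q) → (0 < total Q k j ↔ ∃ m : ℕ, j ≤ hcount m k))) := by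
  classical
  refine ⟨?_, ?_, ?_⟩
  · rintro ⟨hA, hi, hp⟩
    refine ⟨gen hA, sieved_of_seq (gen_meas hA) ?_⟩
    have h1 : ∀ᵐ ω ∂μ, ∀ n, (μ[(A (n + 1)).indicator (fun _ => (1 : ℝ)) | gen hA n]) ω =
        (μ (A (n + 1))).toReal := ae_all_iff.2 fun n => dens_gen hA hi n
    filter_upwards [h1] with ω hω
    refine log_ratio.congr' ?_
    filter_upwards [eventually_ge_atTop 2] with n hn
    rw [hω, hp (n + 1) (by omega), ENNReal.toReal_ofReal, one_div]
    have : 0 ≤ Real.log ((n + 1 : ℕ) : ℝ) := Real.log_natCast_nonneg _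
    positivity
  · rintro ℱ ⟨h1, h2, h3⟩
    have hs : Pool.Agent.N740.HK.HS μ ℱ A := ⟨h1, h2, fun n hn => by
      filter_upwards [h3 n hn] with ω hω
      rw [← prod_inv]
      exact hω⟩
    exact sieved_of_seq h1 (Pool.Agent.N740.HK.hawk_dens hs)
  · rintro ℱ Q hQ ⟨hA, hcop, hd⟩
    filter_upwards [uni (μ := μ) (ℱ := ℱ) hA Q hQ hcop hd] with ω hω k j hj
    have hS : ∀ n ∈ {n | ω ∈ A n}, ∀ p ∈ Q, ¬ p ∣ n := by
      intro n hn p hp hdv
      have hn : ω ∈ A n := hn
      rw [hcop n ⟨p, hp, hdv⟩] at hn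
      exact hn
    have hlaw : 0 < total Q k j →
          CountingLaw (Rich {n | ω ∈ A n} k j) (total Q k j) j ∧
          WindowLaw (Rich {n | ω ∈ A n} k j) (total Q k j) j ∧
          GapLaw (Rich {n | ω ∈ A n} k j) (total Q k j) j := by
      intro hC
      obtain ⟨i, rfl⟩ : ∃ i, j = i + 1 := ⟨j - 1, by omega⟩
      have h1 := hω k i (patterns k (i + 1)) (fun D hD => by
        obtain ⟨h1, h2, h3⟩ := mem_patterns.1 hD
        exact ⟨h2, h3, fun d hd => (h1 d hd).2⟩) hC
      rw [rich_eq _ hj] at h1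
      obtain ⟨h2, h3⟩ := h1
      exact ⟨h2, fun lam hlam => (h3 lam hlam).1, fun lam hlam => (h3 lam hlam).2⟩
    refine ⟨fun hC x => ?_, hlaw, fun hall => ⟨fun hC => ?_, ?_⟩⟩
    · by_contra hcon
      push Not at hcon
      apply hC
      unfold cnt at hcon
      exact total_pos Q hQ (x := x) hj _ (fun d hd => Finset.mem_Icc.1 (Finset.mem_filter.1 hd).1) hcon
        (fun p hp => Or.inl fun d hd => hS _ (Finset.mem_filter.1 hd).2 p hp)
    · have h1 := (hlaw hC).1
      have h2 : (Rich {n | ω ∈ A n} k j).Infinite := by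
        refine inf_of_count hC (k := j) (h1.congr fun X => ?_)
        rw [cn_ncard]
      obtain ⟨x, hx1, hx2⟩ := h2.nonempty
      refine ⟨x, hx2.trans ?_⟩
      unfold cnt hcount
      refine Finset.card_le_card fun d hd => ?_
      obtain ⟨h3, h4⟩ := Finset.mem_filter.1 hd
      exact Finset.mem_filter.2 ⟨h3, fun p hp hpk => hS _ h4 p (hall p hp hpk)⟩
    · rintro ⟨m, hm⟩
      unfold hcount at hm
      refine total_pos Q hQ (x := m) hj _ (fun d hd => Finset.mem_Icc.1 (Finset.mem_filter.1 hd).1) hm (fun p hp => ?_)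
      rcases Nat.lt_or_ge k p with h | h
      · exact Or.inr h
      · exact Or.inl fun d hd => (Finset.mem_filter.1 hd).2 p (hQ p hp) h
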