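import Pool.Agent.N422.CD.ALL

/-!
# The limit of all sieves which detect clusters of almost primes

Author: helper422.  The methods of Goldston-Pintz-Yıldırım and Maynard-Tao, combined with a lower bound sieve, show that for a
set `H` of `k` shifts infinitely often at least `c s log k` of the numbers `n + h`, `h ∈ H`, have no prime factor
`p ≤ Q^(1/s)`, `Q` the level of the sieve (`s` large enough).  So `k = exp(C m)` shifts are needed for `m` almost primes with a
bounded number of prime factors.  Is this a defect of the method?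

Here we prove that it is a limit of all sieves: if `w` is ANY real function of level `Q` (a sum of functions with periods
`d ≤ Q`; no condition on sign or shape), if `w(n) ≤ 0` for all `n` for which fewer than `m` of the numbers `n + h` are free of
the primes `p ≤ Q^(1/s)`, and if `m ≥ C s log(3k/s)`, then the mean of `w` is `≤ 0`.  For nonnegative `w` the mean number of
such `h` with respect to `w` is at most `C s log(3k/s)`.  The order of magnitude is the right one.  For `m = k` see
`MP_e87c7d_nt.SieveLimits`; for primes and nonnegative weights (with the sharp constant, based on the theorem of Bombieri and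
Vinogradov) `MP_68a45e_nt.AllNonnegativeWeights`; there the function is `w(n) (#{h : n + h prime} - m + 1)`, `w ≥ 0` of level
`Q`, here it is arbitrary.

Proof.  Only the primes `Q^(1/k) < p ≤ Q^(1/s)` which do not divide a difference of two elements of `H` are used; each hits at
most one site `n + h`, and `w` becomes a real function `f` of level `1` on a product space (`CD/ARD`, helper273).  The kernels
`K_z` move the places to sites not hit before, with the rates `R (cosh (u t) - (z^u + z^(-u))/2)`, `u = log p / log Q`; `K_z`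
is the identity at `z = e^(-t)`, nonnegative on the circle, and `z K_z f` is analytic (`NW/KER`, `NW/POLY`).  The inequality of
Jensen at `e^(-t)`, summed over the states with `f > 0` (`WS/GEN`, helper704; `CD/NWR`, helper152), gives a linear inequality
for the number of sites not hit with respect to the positive part of `f`; if the mean of `f` is positive the positive part has
at least half of the mass of `|f|`.  A discrete inequality of Gronwall type over the scales (`CD/GRON`, helper359, `CD/PSR`,
helper427) bounds the number of sites not hit up to `Q^(1/s)` by `C s log(3k/s)` (`CD/FIN`, helper451).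
-/

set_option autoImplicit false

open Finset

namespace Pool.Agent.Results.MP_cbf366_nt.LimitsOfClusterDetectors

/-- the weight `w(n) = ∑_{d ≤ Q} c_d(n mod d)`, an arbitrary real weight of level `Q` -/
noncomputable def weight (Q : ℕ) (c : ℕ → ℕ → ℝ) (n : ℕ) : ℝ := ∑ d ∈ Icc 1 Q, c d (n % d)

/-- the mean value of `F` over the period `Q!` -/
noncomputable def mean (Q : ℕ) (F : ℕ → ℝ) : ℝ := (∑ n ∈ range Q.factorial, F n) / (Q.factorial : ℝ)

/-- the primes `p ≤ Q^(1/s)` (for `s ≥ 1`) -/
noncomputable def primes (Q : ℕ) (s : ℝ) : Finset ℕ :=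
  (Icc 1 Q).filter (fun p : ℕ => p.Prime ∧ (p : ℝ) ≤ (Q : ℝ) ^ (1 / s))

/-- the number of the `h ∈ H` for which `n + h` has no prime factor `p ≤ Q^(1/s)` -/
noncomputable def rough (Q : ℕ) (s : ℝ) (H : Finset ℕ) (n : ℕ) : ℕ :=
  (H.filter (fun h => ∀ p ∈ primes Q s, ¬ p ∣ n + h)).card

/-- There is an absolute constant `C` such that for `k ≥ 1`, `1 ≤ s ≤ k`, real `B`, `Q ≥ Q₀(k, s, B)` and every set `H` of `k`
integers in `[0, Q^B]`:

(1) for every weight `w ≥ 0` of level `Q` the mean number of the `h ∈ H` for which `n + h` has no prime factor `p ≤ Q^(1/s)`,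
with respect to `w`, is at most `C s log(3k/s)`;

(2) for every real weight `w` of level `Q` and every real `m ≥ C s log(3k/s)`: if `w(n) ≤ 0` for all `n` for which fewer than
`m` of the numbers `n + h` have no prime factor `p ≤ Q^(1/s)`, then the mean of `w` is `≤ 0`. -/
theorem result : ∃ C : ℝ, 0 < C ∧ ∀ (k : ℕ) (s B : ℝ), 1 ≤ k → 1 ≤ s → s ≤ k → ∃ Q₀ : ℕ, ∀ Q : ℕ, Q₀ ≤ Q →
    ∀ H : Finset ℕ, H.card = k → (∀ h ∈ H, (h : ℝ) ≤ (Q : ℝ) ^ B) → ∀ c : ℕ → ℕ → ℝ,
    ((∀ n, 0 ≤ weight Q c n) → mean Q (fun n => weight Q c n * (rough Q s H n : ℝ)) ≤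
      C * s * Real.log (3 * k / s) * mean Q (weight Q c)) ∧
    ∀ m : ℝ, C * s * Real.log (3 * k / s) ≤ m → (∀ n, (rough Q s H n : ℝ) < m → weight Q c n ≤ 0) →
      mean Q (weight Q c) ≤ 0 := by
  obtain ⟨C, hC, h⟩ := Pool.Agent.N422.CD.fin_all
  refine ⟨C, hC, fun k s B hk hs hsk => ?_⟩
  obtain ⟨Q₀, h⟩ := h k s B hk hs hsk
  refine ⟨max Q₀ 1, fun Q hQ H hH hHB c => ?_⟩
  have hQ0 : Q₀ ≤ Q := (le_max_left _ _).trans hQ
  have hQ1 : 1 ≤ Q := (le_max_right _ _).trans hQ
  obtain ⟨h1, h2⟩ := h Q hQ0 H hH hHB c
  have hmean : mean Q (weight Q c) = Pool.Agent.N422.SL.mn Q c := Pool.Agent.N422.SL.mn_period Q c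
  have hrough : ∀ n, rough Q s H n = Pool.Agent.N422.CD.rough Q s H n := fun n => rfl
  refine ⟨fun hw => ?_, fun m hm hc => ?_⟩
  · have h5 := h1 hw
    rw [hmean]
    exact h5
  · rw [hmean]
    refine h2 m hm fun n hn => hc n ?_
    rw [hrough n]
    exact hn

end Pool.Agent.Results.MP_cbf366_nt.LimitsOfClusterDetectors
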