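import Mathlib
import Pool.Agent.N909.TF.Tools

set_option autoImplicit false

/-!
# Prime counts in short intervals in every sequential random model of the primes

The question (Hardy and Littlewood) is whether, for every `k`, the upper limit of the number of
primes in `(x, x + k]` is the maximum of the number `h_m(k)` of integers in `(m, m + k]` without
prime factors `≤ k`.  We answer it in EVERY sequential random model of the primes: the integers are
decided one after the other, only integers coprime to a fixed `Q` can be chosen, and the conditional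
probability of choosing `n + 1` (coprime to `Q`) given the past is asymptotic to
`(Q / φ(Q)) / log n`.  No independence is assumed.
-/

open MeasureTheory Filter
open scoped Topology

namespace Pool.Agent.Results.MP_cbf366_nt.SievedModels

/-- the number of elements of `S` in `(x, x + k]` -/
noncomputable def cnt (S : Set ℕ) (x k : ℕ) : ℕ := {n : ℕ | x < n ∧ n ≤ x + k ∧ n ∈ S}.ncard

/-- the number `h_m(k)` of the integers in `(m, m + k]` which are divisible by no prime `p ≤ k` -/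
noncomputable def hcount (m k : ℕ) : ℕ :=
  {n : ℕ | m < n ∧ n ≤ m + k ∧ ∀ p : ℕ, p.Prime → p ≤ k → ¬ p ∣ n}.ncard

/-- the number of the `x` in `(0, X]` with `x ≡ m` modulo `Q` for which the elements of `S` in
`(x, x + k]` are exactly the integers coprime to `Q` -/
noncomputable def full (S : Set ℕ) (Q m k X : ℕ) : ℕ :=
  {x : ℕ | 0 < x ∧ x ≤ X ∧ x ≡ m [MOD Q] ∧
    ∀ n : ℕ, x < n → n ≤ x + k → (n ∈ S ↔ Nat.Coprime n Q)}.ncard

open Pool.Agent.N909.TF

/-- the integers coprime to `Q` in the window -/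
def tup (Q k x : ℕ) : Finset ℕ := (Finset.Ioc x (x + k)).filter (fun n => Nat.Coprime n Q)

/-- the windows -/
def fam (Q m X : ℕ) : Finset ℕ := (Finset.Ioc 0 X).filter (fun x => x ≡ m [MOD Q])

lemma tup_card (Q k x : ℕ) : (tup Q k x).card = cnt {n : ℕ | Nat.Coprime n Q} x k := by
  unfold cnt
  rw [← Set.ncard_coe_finset]
  congr 1
  ext n
  simp [tup, and_assoc]

lemma tup_card_congr (Q k : ℕ) {x y : ℕ} (h : x ≡ y [MOD Q]) : (tup Q k x).card = (tup Q k y).card := by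
  have key : ∀ x : ℕ, (tup Q k x).card = ((Finset.Ioc 0 k).filter (fun i => Nat.Coprime (x + i) Q)).card := by
    intro x
    have : tup Q k x = ((Finset.Ioc 0 k).filter (fun i => Nat.Coprime (x + i) Q)).image (fun i => x + i) := by
      ext n
      simp only [tup, Finset.mem_filter, Finset.mem_Ioc, Finset.mem_image]
      constructor
      · rintro ⟨⟨h1, h2⟩, h3⟩
        exact ⟨n - x, ⟨⟨by omega, by omega⟩, by rwa [show x + (n - x) = n by omega]⟩, by omega⟩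
      · rintro ⟨i, ⟨⟨h1, h2⟩, h3⟩, rfl⟩
        exact ⟨⟨by omega, by omega⟩, h3⟩
    rw [this, Finset.card_image_of_injective _ (fun a b hab => by simpa using hab)]
  rw [key, key]
  congr 1
  apply Finset.filter_congr
  intro i _
  have h1 : x + i ≡ y + i [MOD Q] := h.add_right i
  unfold Nat.Coprime
  rw [h1.gcd_eq]

lemma cop_eq (Q m k X : ℕ) : cop (fam Q m X) (tup Q k) Q = fam Q m X := by
  unfold cop
  rw [Finset.filter_eq_self]
  intro x _ t ht
  exact (Finset.mem_filter.1 ht).2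

lemma full_eq {Ω : Type} (A : ℕ → Set Ω) (Q m k X : ℕ) (hcop : ∀ n, ¬ Nat.Coprime n Q → A n = ∅)
    (ω : Ω) : full {n : ℕ | ω ∈ A n} Q m k X = (cho A (fam Q m X) (tup Q k) ω).card := by
  classical
  unfold full
  rw [← Set.ncard_coe_finset]
  congr 1
  ext x
  simp only [cho, fam, tup, Set.mem_ofPred_eq, Finset.coe_filter, Finset.mem_filter,
    Finset.mem_Ioc, and_assoc]
  constructor
  · rintro ⟨h1, h2, h3, h4⟩
    exact ⟨h1, h2, h3, fun t ⟨t1, t2, t3⟩ => (h4 t t1 t2).2 t3⟩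
  · rintro ⟨h1, h2, h3, h4⟩
    refine ⟨h1, h2, h3, fun n n1 n2 => ⟨fun hn => ?_, fun hn => h4 n ⟨n1, n2, hn⟩⟩⟩
    by_contra hc
    rw [hcop n hc] at hn
    exact hn

lemma fam_card (Q m X : ℕ) (hQ : 0 < Q) : |((fam Q m X).card : ℝ) - (X : ℝ) / Q| ≤ 1 := by
  have h := Nat.Ioc_filter_modEq_card 0 X hQ m
  have hQ' : (0 : ℚ) < Q := by exact_mod_cast hQ
  set u : ℚ := ((X : ℚ) - m) / Q with hu
  set w : ℚ := (((0 : ℕ) : ℚ) - m) / Q with hw
  have h1 := Int.floor_le u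
  have h2 := Int.lt_floor_add_one u
  have h3 := Int.floor_le w
  have h4 := Int.lt_floor_add_one w
  have h5 : u - w = (X : ℚ) / Q := by
    rw [hu, hw]
    push_cast
    ring
  have h6 : (0 : ℚ) ≤ (X : ℚ) / Q := by positivity
  have h7 : (((fam Q m X).card : ℤ) : ℚ) = max ((⌊u⌋ : ℚ) - ⌊w⌋) 0 := by
    unfold fam
    rw [h]
    push_cast
    rfl
  have h8 : |((fam Q m X).card : ℚ) - (X : ℚ) / Q| ≤ 1 := by
    have h9 : ((fam Q m X).card : ℚ) = max ((⌊u⌋ : ℚ) - ⌊w⌋) 0 := by exact_mod_cast h7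
    rw [h9, abs_le]
    constructor
    · have := le_max_left ((⌊u⌋ : ℚ) - ⌊w⌋) 0
      linarith
    · have : max ((⌊u⌋ : ℚ) - ⌊w⌋) 0 ≤ (X : ℚ) / Q + 1 := max_le (by linarith) (by linarith)
      linarith
  have h10 : ((|((fam Q m X).card : ℚ) - (X : ℚ) / Q| : ℚ) : ℝ) ≤ ((1 : ℚ) : ℝ) := by
    exact_mod_cast h8
  push_cast at h10
  exact h10

lemma many (Q m : ℕ) (hQ : 0 < Q) :
    ∀ᶠ X : ℕ in atTop, 1 / (2 * (Q : ℝ)) * (X : ℝ) ^ (1 : ℝ) ≤ (fam Q m X).card := by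
  have hQ' : (0 : ℝ) < Q := by exact_mod_cast hQ
  filter_upwards [eventually_ge_atTop (2 * Q)] with X hX
  have h1 := (abs_le.1 (fam_card Q m X hQ)).1
  have h2 : (2 * Q : ℝ) ≤ X := by exact_mod_cast hX
  rw [Real.rpow_one]
  have h3 : 1 / (2 * (Q : ℝ)) * X + 1 ≤ (X : ℝ) / Q := by
    rw [le_div_iff₀ hQ']
    have : (1 / (2 * (Q : ℝ)) * X + 1) * Q = X / 2 + Q := by field_simp
    rw [this]
    linarith
  linarith

lemma few (Q m k : ℕ) (δ : ℝ) (hδ : 0 < δ) : ∃ η : ℝ, 0 < η ∧ ∀ᶠ X : ℕ in atTop,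
    ((far (fam Q m X) (tup Q k) (1 * Real.log X) δ).card : ℝ) ≤ (X : ℝ) ^ (1 - η : ℝ) := by
  classical
  set d : ℝ := min δ (1 / 2) with hd
  have hd0 : 0 < d := by rw [hd]; positivity
  have hd1 : d ≤ 1 / 2 := min_le_right _ _
  refine ⟨d, hd0, ?_⟩
  filter_upwards [near_log (k + 1) d hd0, eventually_gt_atTop 1] with X g1 g3
  have hn : (1 : ℝ) < X := by exact_mod_cast g3
  have hn0 : (0 : ℝ) < X := by linarith
  have hL : 0 < Real.log X := Real.log_pos hn
  set y : ℝ := (X : ℝ) ^ (1 - d) with hy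
  have hy0 : 0 < y := Real.rpow_pos_of_pos hn0 _
  have h2 : far (fam Q m X) (tup Q k) (1 * Real.log X) δ ⊆ Finset.Ioc 0 ⌊y⌋₊ := by
    intro x hx
    unfold far fam tup at hx
    simp only [Finset.mem_filter, Finset.mem_Ioc] at hx
    obtain ⟨⟨⟨m1, m2⟩, -⟩, t, ⟨⟨t1, t2⟩, -⟩, m4⟩ := hx
    rw [Finset.mem_Ioc]
    refine ⟨m1, ?_⟩
    rw [Nat.le_floor_iff hy0.le]
    by_contra hcon
    push Not at hcon
    have m7 := g1 t (by
      have : (x : ℝ) ≤ t := by exact_mod_cast t1.le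
      linarith) (by
      have e1 : (t : ℝ) ≤ x + k := by exact_mod_cast t2
      have e2 : (x : ℝ) ≤ X := by exact_mod_cast m2
      nlinarith [Nat.cast_nonneg (α := ℝ) k])
    rw [one_mul] at m4
    have : d * Real.log X ≤ δ * Real.log X := mul_le_mul_of_nonneg_right (min_le_left _ _) hL.le
    linarith
  have h3 := Finset.card_le_card h2
  rw [Nat.card_Ioc, Nat.sub_zero] at h3
  calc ((far (fam Q m X) (tup Q k) (1 * Real.log X) δ).card : ℝ) ≤ (⌊y⌋₊ : ℝ) := by exact_mod_cast h3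
    _ ≤ y := Nat.floor_le hy0.le

/-- the law for one residue class and one window length -/
lemma lawOne {Ω : Type} [mΩ : MeasurableSpace Ω] (μ : Measure Ω) [IsProbabilityMeasure μ]
    (ℱ : Filtration ℕ mΩ) (A : ℕ → Set Ω) (hA : ∀ n, MeasurableSet[ℱ n] (A n))
    (Q : ℕ) (hQ : 0 < Q) (hcop : ∀ n, ¬ Nat.Coprime n Q → A n = ∅)
    (hd : ∀ᵐ ω ∂μ, Tendsto (fun n : ℕ =>
      (μ[(A (n + 1)).indicator (fun _ => (1 : ℝ)) | ℱ n]) ω * Real.log n)
      (atTop ⊓ 𝓟 {n : ℕ | Nat.Coprime (n + 1) Q}) (𝓝 ((Q : ℝ) / Nat.totient Q))) (k m : ℕ) :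
    ∀ᵐ ω ∂μ, Tendsto (fun X : ℕ => (full {n : ℕ | ω ∈ A n} Q m k X : ℝ) /
      ((X : ℝ) / Q * (((Q : ℝ) / Nat.totient Q) / Real.log X) ^
        cnt {n : ℕ | Nat.Coprime n Q} m k)) atTop (𝓝 1) := by
  classical
  have h3 := law (μ := μ) hA Q hQ hcop hd (cnt {n : ℕ | Nat.Coprime n Q} m k) (fam Q m)
    (fun _ => tup Q k) (fun _ => k + 1)
    (fun n x hx => by
      rw [← tup_card]
      exact tup_card_congr Q k (Finset.mem_filter.1 hx).2)
    (fun n x hx => by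
      intro h
      have := (Finset.mem_Ioc.1 (Finset.mem_filter.1 h).1).1
      omega)
    (fun n t => by
      have h1 : (fam Q m n).filter (fun x => t ∈ tup Q k x) ⊆ Finset.Icc (t - k) t := by
        intro x hx
        have h2 := Finset.mem_Ioc.1 (Finset.mem_filter.1 (Finset.mem_filter.1 hx).2).1
        rw [Finset.mem_Icc]
        omega
      have h2 := Finset.card_le_card h1
      rw [Nat.card_Icc] at h2
      omega)
    (fun _ => by omega) atTop le_rfl 1 1 (1 / (2 * Q)) one_pos (by positivity)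
    (by simp_rw [cop_eq]; exact many Q m hQ)
    ⟨1 / 2, by norm_num, by
      have h1 := ((tendsto_rpow_atTop (by norm_num : (0:ℝ) < 1 - 1 / 2)).comp
        tendsto_natCast_atTop_atTop).eventually_ge_atTop ((k : ℝ) + 1)
      filter_upwards [h1] with n hn
      push_cast
      exact hn⟩ (few Q m k)
  filter_upwards [h3] with ω hω
  have hQ' : (0 : ℝ) < Q := by exact_mod_cast hQ
  have hφ : (0 : ℝ) < Nat.totient Q := by exact_mod_cast Nat.totient_pos.2 hQ
  have e1 : Tendsto (fun X : ℕ => (full {n : ℕ | ω ∈ A n} Q m k X : ℝ) /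
      (((fam Q m X).card : ℝ) * (((Q : ℝ) / Nat.totient Q) / Real.log X) ^
        cnt {n : ℕ | Nat.Coprime n Q} m k)) atTop (𝓝 1) := by
    rw [Metric.tendsto_atTop']
    intro ε hε
    obtain ⟨N, hN⟩ := eventually_atTop.1 ((hω (ε / 2) (by positivity)).and
      ((many Q m hQ).and (eventually_gt_atTop 1)))
    refine ⟨N, fun X hX => ?_⟩
    obtain ⟨g1, g2, g3⟩ := hN X hX.le
    rw [cop_eq] at g1
    rw [full_eq A Q m k X hcop, Real.dist_eq]
    have hn : (1 : ℝ) < X := by exact_mod_cast g3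
    have hL : 0 < Real.log X := Real.log_pos hn
    have hf : (0 : ℝ) < (fam Q m X).card := lt_of_lt_of_le (by positivity) g2
    simp only [one_mul] at g1
    set B : ℝ := ((fam Q m X).card : ℝ) * (((Q : ℝ) / Nat.totient Q) / Real.log X) ^
        cnt {n : ℕ | Nat.Coprime n Q} m k with hB
    have hB0 : 0 < B := by positivity
    rw [show ((cho A (fam Q m X) (tup Q k) ω).card : ℝ) / B - 1 =
      (((cho A (fam Q m X) (tup Q k) ω).card : ℝ) - B) / B by field_simp, abs_div, abs_of_pos hB0,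
      div_lt_iff₀ hB0]
    nlinarith
  have e2 : Tendsto (fun X : ℕ => ((fam Q m X).card : ℝ) / ((X : ℝ) / Q)) atTop (𝓝 1) := by
    rw [Metric.tendsto_atTop']
    intro ε hε
    obtain ⟨N, hN⟩ := exists_nat_gt ((Q : ℝ) / ε)
    refine ⟨N, fun X hX => ?_⟩
    have h1 := fam_card Q m X hQ
    have h2 : (Q : ℝ) / ε < X := hN.trans (by exact_mod_cast hX)
    have h4 : (0 : ℝ) < X := lt_of_le_of_lt (by positivity) h2
    have h5 : (0 : ℝ) < (X : ℝ) / Q := by positivity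
    rw [Real.dist_eq, show ((fam Q m X).card : ℝ) / ((X : ℝ) / Q) - 1 =
      (((fam Q m X).card : ℝ) - (X : ℝ) / Q) / ((X : ℝ) / Q) by field_simp, abs_div,
      abs_of_pos h5, div_lt_iff₀ h5]
    refine lt_of_le_of_lt h1 ?_
    rw [div_lt_iff₀ hε] at h2
    rw [mul_div_assoc', lt_div_iff₀ hQ']
    linarith
  have e3 := e1.mul e2
  rw [mul_one] at e3
  refine e3.congr' ?_
  filter_upwards [many Q m hQ, eventually_gt_atTop 1] with X g2 g3
  have hn : (1 : ℝ) < X := by exact_mod_cast g3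
  have hL : 0 < Real.log X := Real.log_pos hn
  have hf : (0 : ℝ) < (fam Q m X).card := lt_of_lt_of_le (by positivity) g2
  field_simp

lemma cnt_shift (S : Set ℕ) (x k : ℕ) : cnt S x k = {i : ℕ | 0 < i ∧ i ≤ k ∧ x + i ∈ S}.ncard := by
  unfold cnt
  have : {n : ℕ | x < n ∧ n ≤ x + k ∧ n ∈ S} =
      (fun i => x + i) '' {i : ℕ | 0 < i ∧ i ≤ k ∧ x + i ∈ S} := by
    ext n
    constructor
    · rintro ⟨h1, h2, h3⟩
      exact ⟨n - x, ⟨by omega, by omega, by rwa [show x + (n - x) = n by omega]⟩, by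
        show x + (n - x) = n
        omega⟩
    · rintro ⟨i, ⟨h1, h2, h3⟩, rfl⟩
      exact ⟨Nat.lt_add_of_pos_right h1, Nat.add_le_add_left h2 x, h3⟩
  rw [this, Set.ncard_image_of_injective _ (fun a b hab => by simpa using hab)]

lemma hcount_eq (m k : ℕ) :
    hcount m k = cnt {n : ℕ | ∀ p : ℕ, p.Prime → p ≤ k → ¬ p ∣ n} m k := rfl

lemma fin_window (S : Set ℕ) (x k : ℕ) : {n : ℕ | x < n ∧ n ≤ x + k ∧ n ∈ S}.Finite :=
  (Set.finite_Ioc x (x + k)).subset fun _ h => ⟨h.1, h.2.1⟩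

lemma cnt_mono {S S' : Set ℕ} {x k : ℕ} (h : ∀ n, x < n → n ≤ x + k → n ∈ S → n ∈ S') :
    cnt S x k ≤ cnt S' x k :=
  Set.ncard_le_ncard (fun n hn => ⟨hn.1, hn.2.1, h n hn.1 hn.2.1 hn.2.2⟩) (fin_window S' x k)

lemma cnt_le (S : Set ℕ) (x k : ℕ) : cnt S x k ≤ k := by
  have h1 : cnt S x k ≤ (Set.Ioc x (x + k)).ncard :=
    Set.ncard_le_ncard (fun n hn => ⟨hn.1, hn.2.1⟩) (Set.finite_Ioc x (x + k))
  rw [← Finset.coe_Ioc, Set.ncard_coe_finset, Nat.card_Ioc] at h1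
  omega

lemma cnt_full {S : Set ℕ} {Q m k x : ℕ} (hx : x ≡ m [MOD Q])
    (h : ∀ n : ℕ, x < n → n ≤ x + k → (n ∈ S ↔ Nat.Coprime n Q)) :
    cnt S x k = cnt {n : ℕ | Nat.Coprime n Q} m k := by
  rw [← tup_card, ← tup_card_congr Q k hx, tup_card]
  exact le_antisymm (cnt_mono fun n h1 h2 h3 => (h n h1 h2).1 h3)
    (cnt_mono fun n h1 h2 h3 => (h n h1 h2).2 h3)

lemma exists_max (S : Set ℕ) (k : ℕ) : ∃ H : ℕ, (∃ m, cnt S m k = H) ∧ ∀ m, cnt S m k ≤ H := by
  have h1 : (Set.range fun m => cnt S m k).Nonempty := ⟨_, 0, rfl⟩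
  have h2 : BddAbove (Set.range fun m => cnt S m k) := ⟨k, by
    rintro _ ⟨m, rfl⟩
    exact cnt_le S m k⟩
  exact ⟨sSup (Set.range fun m => cnt S m k), Nat.sSup_mem h1 h2, fun m => le_csSup h2 ⟨m, rfl⟩⟩

lemma cnt_le_hcount {Q k : ℕ} (hk : ∀ p : ℕ, p.Prime → p ≤ k → p ∣ Q) (m : ℕ) :
    cnt {n : ℕ | Nat.Coprime n Q} m k ≤ hcount m k := by
  rw [hcount_eq]
  refine cnt_mono fun n _ _ hn p hp hpk hpn => ?_
  exact (coprime_iff_primes n Q).1 hn p hp (hk p hp hpk) hpn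

lemma exists_hcount {Q k : ℕ} (hQ : 0 < Q) (hk : ∀ p : ℕ, p.Prime → p ≤ k → p ∣ Q) (m : ℕ) :
    ∃ m', cnt {n : ℕ | Nat.Coprime n Q} m' k = hcount m k := by
  obtain ⟨x, hx⟩ := crt_primes Q (fun l => if l ≤ k then m else 0)
  refine ⟨x, ?_⟩
  rw [hcount_eq, cnt_shift, cnt_shift]
  congr 1
  ext i
  refine and_congr_right fun h1 => and_congr_right fun h2 => ?_
  show Nat.Coprime (x + i) Q ↔ ∀ p : ℕ, p.Prime → p ≤ k → ¬ p ∣ m + i
  rw [coprime_iff_primes]
  have hmod : ∀ l : ℕ, l.Prime → l ≤ k → l ∣ Q → (l ∣ x + i ↔ l ∣ m + i) := by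
    intro l hl hlk hlQ
    have h3 := hx x rfl l hl hlQ hQ.ne'
    rw [if_pos hlk] at h3
    exact (h3.add_right i).dvd_iff (dvd_refl l)
  constructor
  · intro h p hp hpk hpm
    exact h p hp (hk p hp hpk) ((hmod p hp hpk (hk p hp hpk)).2 hpm)
  · intro h l hl hlQ hlx
    by_cases hlk : l ≤ k
    · exact h l hl hlk ((hmod l hl hlk hlQ).1 hlx)
    · have h3 := hx x rfl l hl hlQ hQ.ne'
      rw [if_neg hlk] at h3
      have h4 : l ∣ i := (Nat.dvd_add_right ((Nat.modEq_zero_iff_dvd).1 h3)).1 hlx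
      exact hlk ((Nat.le_of_dvd h1 h4).trans h2)

/-- The number of full windows tends to infinity, so there are infinitely many. -/
lemma frequently_full {S : Set ℕ} {Q m k : ℕ} (hQ : 0 < Q)
    (h : Tendsto (fun X : ℕ => (full S Q m k X : ℝ) /
      ((X : ℝ) / Q * (((Q : ℝ) / Nat.totient Q) / Real.log X) ^
        cnt {n : ℕ | Nat.Coprime n Q} m k)) atTop (𝓝 1)) :
    ∃ᶠ x in atTop, x ≡ m [MOD Q] ∧
      ∀ n : ℕ, x < n → n ≤ x + k → (n ∈ S ↔ Nat.Coprime n Q) := by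
  have hQ' : (0 : ℝ) < Q := by exact_mod_cast hQ
  have hc : 0 < (Q : ℝ) / Nat.totient Q := lt_of_lt_of_le one_pos (cQ_ge Q hQ)
  set hh := cnt {n : ℕ | Nat.Coprime n Q} m k with hhh
  have h1 := pow_log (((Q : ℝ) / Nat.totient Q) ^ hh / Q) 1 (by positivity) one_pos hh
  have h2 : Tendsto (fun X : ℕ => (full S Q m k X : ℝ)) atTop atTop := by
    have h3 := h.pos_mul_atTop one_pos h1
    refine h3.congr' ?_
    filter_upwards [eventually_gt_atTop 1] with X hX
    have hn : (1 : ℝ) < X := by exact_mod_cast hX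
    have hL : 0 < Real.log X := Real.log_pos hn
    have hX0 : (0 : ℝ) < X := by linarith
    rw [Real.rpow_one]
    have : (X : ℝ) / Q * (((Q : ℝ) / Nat.totient Q) / Real.log X) ^ hh =
        ((Q : ℝ) / Nat.totient Q) ^ hh / Q * X / Real.log X ^ hh := by
      rw [div_pow]
      field_simp
    rw [this, div_mul_cancel₀]
    positivity
  rw [Filter.frequently_atTop]
  intro N
  by_contra hcon
  push Not at hcon
  obtain ⟨X, hX⟩ := (h2.eventually_gt_atTop (N : ℝ)).exists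
  have h3 : full S Q m k X ≤ (Set.Ioc 0 N).ncard := by
    refine Set.ncard_le_ncard ?_ (Set.finite_Ioc 0 N)
    rintro x ⟨x1, -, x3, x4⟩
    refine ⟨x1, ?_⟩
    by_contra hxN
    obtain ⟨n, n1, n2, n3⟩ := hcon x (by omega) x3
    rcases n3 with ⟨n4, n5⟩ | ⟨n4, n5⟩
    · exact n5 ((x4 n n1 n2).1 n4)
    · exact n4 ((x4 n n1 n2).2 n5)
  rw [← Finset.coe_Ioc, Set.ncard_coe_finset, Nat.card_Ioc, Nat.sub_zero] at h3
  have h4 : (full S Q m k X : ℝ) ≤ N := by exact_mod_cast h3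
  linarith

end Pool.Agent.Results.MP_cbf366_nt.SievedModels

open Pool.Agent.Results.MP_cbf366_nt.SievedModels Pool.Agent.N909.TF

/-- Let `A n` be the event that `n` belongs to a random set adapted to a filtration `ℱ`, let
`Q ≥ 1`, let no integer which is not coprime to `Q` be chosen, and let the conditional probability of
`A (n + 1)` given `ℱ n`, times `log n`, tend to `Q / φ(Q)` along the `n` with `n + 1` coprime to `Q`,
almost surely.  Then almost surely, for every `k`: (1) for every `m`, the number of the `x ≤ X` with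
`x ≡ m` modulo `Q` for which the chosen integers in `(x, x + k]` are exactly the integers coprime to
`Q` is asymptotic to `(X / Q) ((Q / φ(Q)) / log X) ^ h`, where `h` is the number of the integers
coprime to `Q` in `(m, m + k]`; (2) the number of chosen integers in `(x, x + k]` is equal for
infinitely many `x`, and at most equal for all `x`, to the maximum over `m` of the number of integers
coprime to `Q` in `(m, m + k]`; (3) if `Q` is divisible by all primes `p ≤ k`, this maximum is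
`max_m h_m(k)`. -/
theorem Pool.Agent.Results.MP_cbf366_nt.SievedModels.result
    {Ω : Type} [mΩ : MeasurableSpace Ω] (μ : Measure Ω) [IsProbabilityMeasure μ]
    (ℱ : Filtration ℕ mΩ) (A : ℕ → Set Ω) (hA : ∀ n, MeasurableSet[ℱ n] (A n))
    (Q : ℕ) (hQ : 0 < Q) (hcop : ∀ n, ¬ Nat.Coprime n Q → A n = ∅)
    (hd : ∀ᵐ ω ∂μ, Tendsto (fun n : ℕ =>
      (μ[(A (n + 1)).indicator (fun _ => (1 : ℝ)) | ℱ n]) ω * Real.log n)
      (atTop ⊓ 𝓟 {n : ℕ | Nat.Coprime (n + 1) Q}) (𝓝 ((Q : ℝ) / Nat.totient Q))) :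
    ∀ᵐ ω ∂μ, ∀ k : ℕ,
      (∀ m : ℕ, Tendsto (fun X : ℕ => (full {n : ℕ | ω ∈ A n} Q m k X : ℝ) /
        ((X : ℝ) / Q * (((Q : ℝ) / Nat.totient Q) / Real.log X) ^
          cnt {n : ℕ | Nat.Coprime n Q} m k)) atTop (𝓝 1)) ∧
      (∃ H : ℕ, (∃ m, cnt {n : ℕ | Nat.Coprime n Q} m k = H) ∧
        (∀ m, cnt {n : ℕ | Nat.Coprime n Q} m k ≤ H) ∧
        (∃ᶠ x in atTop, cnt {n : ℕ | ω ∈ A n} x k = H) ∧
        ∀ x, cnt {n : ℕ | ω ∈ A n} x k ≤ H) ∧
      ((∀ p : ℕ, p.Prime → p ≤ k → p ∣ Q) → ∃ H : ℕ, (∃ m, hcount m k = H) ∧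
        (∀ m, hcount m k ≤ H) ∧ (∃ᶠ x in atTop, cnt {n : ℕ | ω ∈ A n} x k = H) ∧
        ∀ x, cnt {n : ℕ | ω ∈ A n} x k ≤ H) := by
  have h1 : ∀ᵐ ω ∂μ, ∀ km : ℕ × ℕ, Tendsto (fun X : ℕ =>
      (full {n : ℕ | ω ∈ A n} Q km.2 km.1 X : ℝ) /
      ((X : ℝ) / Q * (((Q : ℝ) / Nat.totient Q) / Real.log X) ^
        cnt {n : ℕ | Nat.Coprime n Q} km.2 km.1)) atTop (𝓝 1) :=
    ae_all_iff.2 fun km => lawOne μ ℱ A hA Q hQ hcop hd km.1 km.2
  filter_upwards [h1] with ω hω k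
  have h2 : ∃ H : ℕ, (∃ m, cnt {n : ℕ | Nat.Coprime n Q} m k = H) ∧
        (∀ m, cnt {n : ℕ | Nat.Coprime n Q} m k ≤ H) ∧
        (∃ᶠ x in atTop, cnt {n : ℕ | ω ∈ A n} x k = H) ∧
        ∀ x, cnt {n : ℕ | ω ∈ A n} x k ≤ H := by
    obtain ⟨H, ⟨m, hm⟩, hH⟩ := exists_max {n : ℕ | Nat.Coprime n Q} k
    refine ⟨H, ⟨m, hm⟩, hH, ?_, fun x => ?_⟩
    · refine (frequently_full hQ (hω (k, m))).mono fun x hx => ?_
      rw [cnt_full hx.1 hx.2, hm]
    · refine (cnt_mono fun n _ _ hn => ?_).trans (hH x)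
      by_contra hc
      have h3 : ω ∈ A n := hn
      rw [hcop n hc] at h3
      exact h3
  refine ⟨fun m => hω (k, m), h2, fun hk => ?_⟩
  obtain ⟨H, ⟨m, hm⟩, hH, hf, hx⟩ := h2
  have h4 : ∀ m, hcount m k ≤ H := fun m => by
    obtain ⟨m', hm'⟩ := exists_hcount hQ hk m
    rw [← hm']
    exact hH m'
  exact ⟨H, ⟨m, le_antisymm (h4 m) (hm ▸ cnt_le_hcount hk m)⟩, h4, hf, hx⟩
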